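import Pool.Agent.helper31.EllipticSmooth

set_option autoImplicit false

/-!
# Unique continuation along level surfaces fails, even for smooth coefficients

In every dimension `n ≥ 2`, for all `K > 1`, `E > 0`, `R > 0` there are a smooth symmetric matrix function `A` on the whole
space with the ellipticity constant `K` and the Lipschitz constant `E`, and a smooth function `v`, such that
`u = x_2` and `v` are classical solutions of `div (A ∇ u) = 0` on the slab `|x_2| < R`, and on the hyperplane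
`S = {x_2 = 0}` the function `v` vanishes exactly at the points with `x_1 ≥ 0`.
-/

namespace Pool.Agent.Results.MP_22f2dc_an.SmoothCoefficients

open scoped ContDiff

/-- `div (A ∇ u)` at the point `x`. -/
noncomputable def divA {n : ℕ} (A : EuclideanSpace ℝ (Fin n) → Matrix (Fin n) (Fin n) ℝ)
    (u : EuclideanSpace ℝ (Fin n) → ℝ) (x : EuclideanSpace ℝ (Fin n)) : ℝ :=
  ∑ i, fderiv ℝ (fun y => ∑ j, A y i j * fderiv ℝ u y (EuclideanSpace.single j 1)) x (EuclideanSpace.single i 1)

/-- The coordinates are `x ⟨0, _⟩`, `x ⟨1, _⟩`, ..; `S` is the hyperplane `x ⟨1, _⟩ = 0`, `Ω` the slab `|x ⟨1, _⟩| < R`,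
`Σ` the set of the points of `S` with `0 < x ⟨0, _⟩`. -/
theorem result (n : ℕ) (hn : 2 ≤ n) (K E R : ℝ) (hK : 1 < K) (hE : 0 < E) (hR : 0 < R) :
    ∃ (A : EuclideanSpace ℝ (Fin n) → Matrix (Fin n) (Fin n) ℝ) (v : EuclideanSpace ℝ (Fin n) → ℝ),
      (∀ i j, ContDiff ℝ ∞ fun x => A x i j) ∧ (∀ x i j, A x i j = A x j i) ∧
      (∀ x ξ : EuclideanSpace ℝ (Fin n),
        K⁻¹ * ‖ξ‖ ^ 2 ≤ ∑ i, ∑ j, A x i j * ξ i * ξ j ∧ ∑ i, ∑ j, A x i j * ξ i * ξ j ≤ K * ‖ξ‖ ^ 2) ∧
      (∀ (x y : EuclideanSpace ℝ (Fin n)) (i j : Fin n), |A x i j - A y i j| ≤ E * dist x y) ∧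
      ContDiff ℝ ∞ v ∧
      (∀ x : EuclideanSpace ℝ (Fin n), |x ⟨1, hn⟩| < R → divA A (fun y => y ⟨1, hn⟩) x = 0 ∧ divA A v x = 0) ∧
      ∀ x : EuclideanSpace ℝ (Fin n), x ⟨1, hn⟩ = 0 → (v x = 0 ↔ 0 ≤ x ⟨0, by omega⟩) := by
  open Pool.Agent.helper31.EllipticSmooth in
  obtain ⟨f, η, ε, hD, hb, hl⟩ := exists_dat K E R hK hE hR
  have h01 : (⟨0, by omega⟩ : Fin n) ≠ ⟨1, hn⟩ := by
    intro h
    have h1 := congrArg Fin.val h
    exact absurd h1 (by norm_num)
  set i0 : Fin n := ⟨0, by omega⟩ with hi0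
  set i1 : Fin n := ⟨1, hn⟩ with hi1
  have hK0 : 0 < K := by linarith
  open Pool.Agent.helper31.EllipticSmooth in
  have hDpos : ∀ x y, 0 < D f η ε x y := fun x y => by linarith [(hb x y).2.2]
  open Pool.Agent.helper31.EllipticSmooth in
  have hdd : ∀ (x : EuclideanSpace ℝ (Fin n)) (i : Fin n), K⁻¹ ≤ dd f η ε i0 i1 x i ∧ dd f η ε i0 i1 x i ≤ K := by
    intro x i
    unfold dd
    split_ifs with h
    · obtain ⟨a1, a2, -⟩ := hb (x i0) (x i1)
      refine ⟨inv_anti₀ (hDpos _ _) a2, ?_⟩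
      have := inv_anti₀ (inv_pos.2 hK0) a1
      rwa [inv_inv] at this
    · exact ⟨(inv_le_one_of_one_le₀ hK.le), hK.le⟩
  open Pool.Agent.helper31.EllipticSmooth in
  refine ⟨AA f η ε i0 i1, vv f ε i0 i1, ?_, ?_, ?_, ?_, smooth_vv hD i0 i1, ?_, ?_⟩
  · intro i j
    unfold AA
    by_cases hij : i = j
    · subst hij
      have e : (fun x : EuclideanSpace ℝ (Fin n) => Matrix.diagonal (dd f η ε i0 i1 x) i i) = fun x => dd f η ε i0 i1 x i := by
        funext x
        rw [Matrix.diagonal_apply_eq]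
      rw [e]
      unfold dd
      by_cases h : i = i0
      · simp only [if_pos h]
        exact (smooth_D hD i0 i1).inv (fun x => (hDpos _ _).ne')
      · simp only [if_neg h]
        exact contDiff_const
    · have e : (fun x : EuclideanSpace ℝ (Fin n) => Matrix.diagonal (dd f η ε i0 i1 x) i j) = fun _ => (0 : ℝ) := by
        funext x
        rw [Matrix.diagonal_apply_ne _ hij]
      rw [e]
      exact contDiff_const
  · intro x i j
    unfold AA
    by_cases hij : i = j
    · rw [hij]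
    · rw [Matrix.diagonal_apply_ne _ hij, Matrix.diagonal_apply_ne _ (Ne.symm hij)]
  · intro x ξ
    have e : ∑ i, ∑ j, AA f η ε i0 i1 x i j * ξ i * ξ j = ∑ i, dd f η ε i0 i1 x i * ξ i ^ 2 := by
      apply Finset.sum_congr rfl
      intro i _
      have e1 : ∀ j, AA f η ε i0 i1 x i j * ξ i * ξ j = AA f η ε i0 i1 x i j * (ξ i * ξ j) := fun j => mul_assoc _ _ _
      rw [Finset.sum_congr rfl (fun j _ => e1 j), sum_AA i0 i1 i x (fun j => ξ i * ξ j)]
      ring
    rw [e, EuclideanSpace.norm_sq_eq, Finset.mul_sum, Finset.mul_sum]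
    constructor
    · apply Finset.sum_le_sum
      intro i _
      rw [Real.norm_eq_abs, sq_abs]
      exact mul_le_mul_of_nonneg_right (hdd x i).1 (sq_nonneg _)
    · apply Finset.sum_le_sum
      intro i _
      rw [Real.norm_eq_abs, sq_abs]
      exact mul_le_mul_of_nonneg_right (hdd x i).2 (sq_nonneg _)
  · intro x y i j
    have h0 : 0 ≤ E * dist x y := mul_nonneg hE.le dist_nonneg
    unfold AA
    by_cases hij : i = j
    · subst hij
      rw [Matrix.diagonal_apply_eq, Matrix.diagonal_apply_eq]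
      unfold dd
      by_cases h : i = i0
      · simp only [if_pos h]
        have p1 := hDpos (x i0) (x i1)
        have p2 := hDpos (y i0) (y i1)
        have q1 : (D f η ε (x i0) (x i1))⁻¹ ≤ 2 := by
          have := inv_anti₀ (by norm_num : (0 : ℝ) < 1 / 2) (hb (x i0) (x i1)).2.2
          simpa using this
        have q2 : (D f η ε (y i0) (y i1))⁻¹ ≤ 2 := by
          have := inv_anti₀ (by norm_num : (0 : ℝ) < 1 / 2) (hb (y i0) (y i1)).2.2
          simpa using this
        have e : (D f η ε (x i0) (x i1))⁻¹ - (D f η ε (y i0) (y i1))⁻¹ =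
            ((D f η ε (x i0) (x i1))⁻¹ * (D f η ε (y i0) (y i1))⁻¹) * (D f η ε (y i0) (y i1) - D f η ε (x i0) (x i1)) := by
          field_simp
        have h1 := hl (y i0) (y i1) (x i0) (x i1)
        have h2 : |y i0 - x i0| + |y i1 - x i1| ≤ 2 * dist x y := by
          have a1 := coord_le i0 y x
          have a2 := coord_le i1 y x
          rw [dist_comm] at a1 a2
          linarith
        have h3 : |D f η ε (y i0) (y i1) - D f η ε (x i0) (x i1)| ≤ E / 4 * dist x y := by
          refine h1.trans ?_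
          have := mul_le_mul_of_nonneg_left h2 (by linarith : (0 : ℝ) ≤ E / 8)
          linarith
        have h4 : |(D f η ε (x i0) (x i1))⁻¹ * (D f η ε (y i0) (y i1))⁻¹| ≤ 4 := by
          have b1 := inv_pos.2 p1
          have b2 := inv_pos.2 p2
          rw [abs_of_pos (mul_pos b1 b2)]
          calc (D f η ε (x i0) (x i1))⁻¹ * (D f η ε (y i0) (y i1))⁻¹ ≤ 2 * 2 := mul_le_mul q1 q2 b2.le (by norm_num)
            _ = 4 := by norm_num
        rw [e, abs_mul]
        calc _ ≤ 4 * (E / 4 * dist x y) := mul_le_mul h4 h3 (abs_nonneg _) (by norm_num)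
          _ = E * dist x y := by ring
      · simp only [if_neg h, sub_self, abs_zero]
        exact h0
    · rw [Matrix.diagonal_apply_ne _ hij, Matrix.diagonal_apply_ne _ hij, sub_self, abs_zero]
      exact h0
  · intro x hx
    exact ⟨div_u i0 i1 h01 x, div_v hD i0 i1 h01 (fun a b => (hDpos a b).ne') x hx⟩
  · intro x hx
    rw [← w_iff hD (x i0)]
    unfold vv
    rw [hx]
    simp

end Pool.Agent.Results.MP_22f2dc_an.SmoothCoefficients
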